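import Pool.Agent.Helper509.AH.Final

/-! Every separable unital C*-algebra is isomorphic, as a Banach algebra, to the Calkin algebra
`L(X)/K(X)` of a Banach space `X`. This covers the UHF algebra of type `2^∞`, the Cuntz algebras,
and the reduced and the full C*-algebra of the free group on two generators. -/

namespace Pool.Agent.Results.MP_1acf33_an.SeparableCalkin

open Filter Topology

universe u

/-- The ideal `K(X)` of the compact operators in the algebra `L(X)` of the bounded operators. -/
def compactIdeal (X : Type u) [NormedAddCommGroup X] [NormedSpace ℂ X] : Ideal (X →L[ℂ] X) where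
  carrier := {T | IsCompactOperator T}
  add_mem' := fun hS hT => hS.add hT
  zero_mem' := isCompactOperator_zero
  smul_mem' := fun S _ hT => hT.clm_comp S

instance compactIdeal_isTwoSided (X : Type u) [NormedAddCommGroup X] [NormedSpace ℂ X] :
    (compactIdeal X).IsTwoSided where
  mul_mem_of_left S hT := IsCompactOperator.comp_clm hT S

/-- The Calkin algebra `L(X)/K(X)`, with the quotient norm, and `A` are isomorphic as Banach
algebras: there is an isomorphism of algebras which is bounded in both directions. -/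
def CalkinIso (X A : Type u) [NormedAddCommGroup X] [NormedSpace ℂ X] [NormedRing A]
    [NormedAlgebra ℂ A] : Prop :=
  ∃ e : ((X →L[ℂ] X) ⧸ compactIdeal X) ≃ₐ[ℂ] A,
    (∃ C : ℝ, ∀ x, ‖e x‖ ≤ C * ‖x‖) ∧ ∃ C : ℝ, ∀ a : A, ‖e.symm a‖ ≤ C * ‖a‖

/-- `A` admits a representation as a Calkin algebra: there is a Banach space `X` such that
`L(X)/K(X)` and `A` are isomorphic as Banach algebras. -/
def IsCalkin (A : Type u) [NormedRing A] [NormedAlgebra ℂ A] : Prop :=
  ∃ (X : Type u) (_ : NormedAddCommGroup X) (_ : NormedSpace ℂ X),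
    CompleteSpace X ∧ CalkinIso X A

/-- The block diagonal matrix `diag(a, a)`. -/
def dbl (n : ℕ) (a : Matrix (Fin (2 ^ n)) (Fin (2 ^ n)) ℂ) :
    Matrix (Fin (2 ^ (n + 1))) (Fin (2 ^ (n + 1))) ℂ :=
  Matrix.reindex (finSumFinEquiv.trans (finCongr (by rw [pow_succ, mul_two])))
    (finSumFinEquiv.trans (finCongr (by rw [pow_succ, mul_two])))
    (Matrix.fromBlocks a 0 0 a)

/-- `A` is the UHF algebra of type `2^∞`, the C*-inductive limit of the matrix algebras
`M_{2^n}(ℂ)` along the maps `a ↦ diag(a, a)`. -/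
def IsUHFTwo (A : Type u) [CStarAlgebra A] : Prop :=
  ∃ ψ : ∀ n : ℕ, Matrix (Fin (2 ^ n)) (Fin (2 ^ n)) ℂ →⋆ₐ[ℂ] A,
    (∀ n, Function.Injective (ψ n)) ∧ (∀ n a, ψ (n + 1) (dbl n a) = ψ n a) ∧
    Dense (⋃ n, Set.range (ψ n))

/-- The family `s` generates the C*-algebra `A`. -/
def Generates {ι : Type} {A : Type u} [CStarAlgebra A] (s : ι → A) : Prop :=
  Dense (StarAlgebra.adjoin ℂ (Set.range s) : Set A)

/-- There is a unital *-homomorphism which maps the family `s` to the family `t`. -/
def HasHom {ι : Type} {A B : Type u} [CStarAlgebra A] [CStarAlgebra B] (s : ι → A) (t : ι → B) :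
    Prop :=
  ∃ φ : A →⋆ₐ[ℂ] B, ∀ i, φ (s i) = t i

/-- The relations of the Cuntz algebra: the `t_i` are isometries and `∑ t_i t_i^* = 1`. -/
def CuntzRel {n : ℕ} {B : Type u} [CStarAlgebra B] (t : Fin n → B) : Prop :=
  (∀ i, star (t i) * t i = 1) ∧ ∑ i, t i * star (t i) = 1

/-- `A` is the Cuntz algebra `O_n`, the universal C*-algebra generated by isometries
`s_1, ..., s_n` with `∑ s_i s_i^* = 1`. -/
def IsCuntz (n : ℕ) (A : Type u) [CStarAlgebra A] : Prop :=
  ∃ s : Fin n → A, CuntzRel s ∧ Generates s ∧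
    ∀ (B : Type u) [CStarAlgebra B] (t : Fin n → B), CuntzRel t → HasHom s t

/-- `lam` is the left regular representation of the free group `F₂` on two generators on the
Hilbert space `H` with the orthonormal basis `δ` indexed by `F₂` (so `H` is `ℓ²(F₂)`), that is
`lam g (δ h) = δ (g h)`. -/
def IsLeftRegular {H : Type u} [NormedAddCommGroup H] [InnerProductSpace ℂ H] [CompleteSpace H]
    (δ : FreeGroup (Fin 2) → H) (lam : FreeGroup (Fin 2) → (H →L[ℂ] H)) : Prop :=
  Orthonormal ℂ δ ∧ Dense (Submodule.span ℂ (Set.range δ) : Set H) ∧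
    ∀ g h, lam g (δ h) = δ (g * h)

/-- `A` is isomorphic to the norm closure in `L(H)` of the star algebra generated by the operators
of the left regular representation of `F₂` on `H = ℓ²(F₂)`. -/
def IsRedFreeOn (H A : Type u) [NormedAddCommGroup H] [InnerProductSpace ℂ H] [CompleteSpace H]
    [CStarAlgebra A] : Prop :=
  ∃ (δ : FreeGroup (Fin 2) → H) (lam : FreeGroup (Fin 2) → (H →L[ℂ] H))
    (π : A →⋆ₐ[ℂ] (H →L[ℂ] H)), IsLeftRegular δ lam ∧ Isometry π ∧
      Set.range π = closure (StarAlgebra.adjoin ℂ (Set.range lam) : Set (H →L[ℂ] H))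

/-- `A` is the reduced group C*-algebra `C*_r(F₂)`. -/
def IsRedFree (A : Type u) [CStarAlgebra A] : Prop :=
  ∃ (H : Type u) (_ : NormedAddCommGroup H) (_ : InnerProductSpace ℂ H) (_ : CompleteSpace H),
    IsRedFreeOn H A

/-- `w` is a homomorphism from the free group on two generators to the unitary group of `B`. -/
def IsUnitaryRep {B : Type u} [CStarAlgebra B] (w : FreeGroup (Fin 2) → B) : Prop :=
  w 1 = 1 ∧ (∀ g h, w (g * h) = w g * w h) ∧ ∀ g, star (w g) = w g⁻¹

/-- `A` is the full group C*-algebra `C*(F₂)`: it is generated by a unitary representation of `F₂`,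
and every unitary representation of `F₂` in a unital C*-algebra extends to `A`. -/
def IsFullFree (A : Type u) [CStarAlgebra A] : Prop :=
  ∃ v : FreeGroup (Fin 2) → A, IsUnitaryRep v ∧ Generates v ∧
    ∀ (B : Type u) [CStarAlgebra B] (w : FreeGroup (Fin 2) → B), IsUnitaryRep w → HasHom v w

theorem mem_compactIdeal (X : Type u) [NormedAddCommGroup X] [NormedSpace ℂ X] (T : X →L[ℂ] X) :
    T ∈ compactIdeal X ↔ IsCompactOperator T := Iff.rfl

/-- From a homomorphism to an isomorphism of the quotient. -/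
theorem isCalkin_of_hom {A : Type u} [NormedRing A] [NormedAlgebra ℂ A] [CompleteSpace A]
    {X : Type u} [NormedAddCommGroup X] [NormedSpace ℂ X] [CompleteSpace X]
    (φ : (X →L[ℂ] X) →ₐ[ℂ] A) (h1 : Continuous φ) (h2 : Function.Surjective φ)
    (h3 : ∀ T, φ T = 0 ↔ IsCompactOperator T) : IsCalkin A := by
  have hker : compactIdeal X = RingHom.ker φ := by
    ext T
    rw [mem_compactIdeal, RingHom.mem_ker, h3]
  let e : ((X →L[ℂ] X) ⧸ compactIdeal X) ≃ₐ[ℂ] A := (Ideal.quotientEquivAlgOfEq ℂ hker).trans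
    (Ideal.quotientKerAlgEquivOfSurjective h2)
  have he : ∀ T : X →L[ℂ] X, e (Submodule.Quotient.mk T) = φ T := fun T => rfl
  let f : (X →L[ℂ] X) →L[ℂ] A := ⟨φ.toLinearMap, h1⟩
  have hf : ∀ T, f T = φ T := fun _ => rfl
  refine ⟨X, inferInstance, inferInstance, inferInstance, e, ⟨‖f‖, fun x => ?_⟩, ?_⟩
  · refine le_of_forall_pos_le_add fun ε hε => ?_
    obtain ⟨T, hT, hT2⟩ := Submodule.Quotient.norm_mk_lt (S := compactIdeal X) x
      (show 0 < ε / (‖f‖ + 1) by positivity)
    rw [← hT, he, ← hf]
    refine (f.le_opNorm T).trans ?_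
    rw [← hT] at hT2
    have h5 : ‖f‖ * (ε / (‖f‖ + 1)) ≤ ε := by
      rw [mul_div_assoc', div_le_iff₀ (by positivity)]
      nlinarith [norm_nonneg f]
    calc ‖f‖ * ‖T‖ ≤ ‖f‖ * (‖(Submodule.Quotient.mk T : (X →L[ℂ] X) ⧸ compactIdeal X)‖ +
            ε / (‖f‖ + 1)) := by
          gcongr
      _ = ‖f‖ * ‖(Submodule.Quotient.mk T : (X →L[ℂ] X) ⧸ compactIdeal X)‖ +
            ‖f‖ * (ε / (‖f‖ + 1)) := by ring
      _ ≤ ‖f‖ * ‖(Submodule.Quotient.mk T : (X →L[ℂ] X) ⧸ compactIdeal X)‖ + ε := by linarith
  · obtain ⟨C, hC, hC2⟩ := f.exists_preimage_norm_le h2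
    refine ⟨C, fun a => ?_⟩
    obtain ⟨T, hT, hT2⟩ := hC2 a
    have h5 : e.symm a = Submodule.Quotient.mk T := by
      rw [← hT, hf, ← he, AlgEquiv.symm_apply_apply]
    rw [h5]
    exact (Submodule.Quotient.norm_mk_le (compactIdeal X) T).trans hT2

/-- The general theorem. -/
theorem isCalkin (A : Type u) [CStarAlgebra A] [TopologicalSpace.SeparableSpace A] :
    IsCalkin A := by
  rcases subsingleton_or_nontrivial A with h | h
  · let φ : (PUnit.{u+1} →L[ℂ] PUnit.{u+1}) →ₐ[ℂ] A :=
      { toFun := fun _ => 0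
        map_one' := Subsingleton.elim _ _
        map_mul' := fun _ _ => Subsingleton.elim _ _
        map_zero' := rfl
        map_add' := fun _ _ => Subsingleton.elim _ _
        commutes' := fun _ => Subsingleton.elim _ _ }
    refine isCalkin_of_hom φ continuous_const (fun a => ⟨0, Subsingleton.elim _ _⟩) fun T => ?_
    have hT : T = 0 := by ext
    rw [hT]
    exact ⟨fun _ => isCompactOperator_zero, fun _ => Subsingleton.elim _ _⟩
  · obtain ⟨Y, i1, i2, i3, φ, h1, h2, h3⟩ := Pool.Agent.Helper509.AH.main (A := A)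
    exact isCalkin_of_hom φ h1 h2 h3

/-- The star algebra generated by a countable set is separable. -/
theorem isSeparable_adjoin {A : Type u} [CStarAlgebra A] {S : Set A} (hS : S.Countable) :
    TopologicalSpace.IsSeparable (StarAlgebra.adjoin ℂ S : Set A) := by
  have h1 : (StarAlgebra.adjoin ℂ S : Set A) =
      (Submodule.span ℂ (Submonoid.closure (S ∪ star S) : Set A) : Set A) := by
    rw [← Algebra.adjoin_eq_span]
    rfl
  rw [h1]
  have h2 : (S ∪ star S).Countable := by
    refine hS.union ?_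
    rw [← Set.image_star]
    exact hS.image _
  have : Countable (S ∪ star S : Set A) := h2.to_subtype
  have h3 : Countable (Submonoid.closure (S ∪ star S)) := by
    have h4 : Function.Surjective (fun l : FreeMonoid (S ∪ star S : Set A) =>
        (⟨FreeMonoid.lift (fun x : (S ∪ star S : Set A) => (x : A)) l, by
          rw [Submonoid.closure_eq_mrange]; exact ⟨l, rfl⟩⟩ : Submonoid.closure (S ∪ star S))) := by
      rintro ⟨x, hx⟩
      have hx' := hx
      rw [Submonoid.closure_eq_mrange] at hx'
      obtain ⟨l, hl⟩ := hx'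
      exact ⟨l, Subtype.ext hl⟩
    have : Countable (FreeMonoid (S ∪ star S : Set A)) :=
      inferInstanceAs (Countable (List (S ∪ star S : Set A)))
    exact h4.countable
  exact (Set.Countable.isSeparable (Set.countable_coe_iff.1 h3)).span

/-- A countably generated C*-algebra is separable. -/
theorem separable_of_generates {ι : Type} [Countable ι] {A : Type u} [CStarAlgebra A] {s : ι → A}
    (h : Generates s) : TopologicalSpace.SeparableSpace A := by
  rw [← TopologicalSpace.isSeparable_univ_iff, ← h.closure_eq]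
  exact (isSeparable_adjoin (Set.countable_range s)).closure

/-- Every separable unital C*-algebra is the Calkin algebra of a Banach space; in particular so are
(a) the UHF algebra of type `2^∞`, (b) the Cuntz algebras, (c) `C*_r(F₂)` and (d) `C*(F₂)`. -/
theorem result (A : Type u) [CStarAlgebra A] :
    (TopologicalSpace.SeparableSpace A → IsCalkin A) ∧
    (IsUHFTwo A → IsCalkin A) ∧
    (∀ n : ℕ, 2 ≤ n → IsCuntz n A → IsCalkin A) ∧
    (IsRedFree A → IsCalkin A) ∧
    (IsFullFree A → IsCalkin A) := by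
  refine ⟨fun _ => isCalkin A, ?_, ?_, ?_, ?_⟩
  · rintro ⟨ψ, -, -, hd⟩
    have hsep : TopologicalSpace.IsSeparable (⋃ n, Set.range (ψ n)) := by
      refine TopologicalSpace.IsSeparable.iUnion fun n => ?_
      have h1 : Continuous (ψ n : Matrix (Fin (2 ^ n)) (Fin (2 ^ n)) ℂ → A) :=
        ((ψ n : Matrix (Fin (2 ^ n)) (Fin (2 ^ n)) ℂ →ₐ[ℂ] A).toLinearMap).continuous_of_finiteDimensional
      have : TopologicalSpace.SeparableSpace (Matrix (Fin (2 ^ n)) (Fin (2 ^ n)) ℂ) :=
        inferInstanceAs (TopologicalSpace.SeparableSpace (Fin (2 ^ n) → Fin (2 ^ n) → ℂ))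
      exact TopologicalSpace.isSeparable_range h1
    have : TopologicalSpace.SeparableSpace A := by
      rw [← TopologicalSpace.isSeparable_univ_iff, ← hd.closure_eq]
      exact hsep.closure
    exact isCalkin A
  · rintro n - ⟨s, -, hs, -⟩
    have := separable_of_generates hs
    exact isCalkin A
  · rintro ⟨H, i1, i2, i3, δ, lam, π, -, hπ, hr⟩
    have : Countable (FreeGroup (Fin 2)) := inferInstance
    have hsep : TopologicalSpace.IsSeparable (Set.range π) := by
      rw [hr]
      exact (isSeparable_adjoin (Set.countable_range lam)).closure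
    have h1 : TopologicalSpace.SeparableSpace (Set.range π) := hsep.separableSpace
    have e := hπ.isEmbedding.toHomeomorph
    have : TopologicalSpace.SeparableSpace A :=
      e.symm.surjective.denseRange.separableSpace e.symm.continuous
    exact isCalkin A
  · rintro ⟨v, -, hv, -⟩
    have : Countable (FreeGroup (Fin 2)) := inferInstance
    have := separable_of_generates hv
    exact isCalkin A

end Pool.Agent.Results.MP_1acf33_an.SeparableCalkin
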